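import Pool.Agent.H782.Ste.Final

/-!
# Steiner systems on words with interchangeable positions

The points are the words of length `L` over `k` letters. Let `2 ≤ r < q` and `k ≥ 2`. If a Steiner
system `S(k^L, q, r)` on the words is invariant under the even permutations of sufficiently many
positions (how many depends on `k`, `q`, `r`, not on `L`), then `r = 2` and `q` is a prime power, or
`(q, r) = (4, 3)`. For large `L` there is a Steiner system `S(k^L, q, r)` on the words which is
invariant under all (or all even) permutations of the positions if and only if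

* `r = 2`, `q` is a prime power and there is an `S(k, q, 2)`, or
* `(q, r) = (4, 3)` and `k = 2` or there is an `S(k, 4, 3)`.
-/

set_option autoImplicit false

namespace Pool.Agent.Results.MP_409a13_co.InterchangeablePositions

open Finset Pool.Agent.H782.Ste

theorem result (k q r : ℕ) (hk : 2 ≤ k) (hr : 2 ≤ r) (hq : r < q) : ∃ N₀ : ℕ,
    (∀ (L : ℕ) (I : Finset (Fin L)), N₀ ≤ I.card → ∀ 𝓑 : Set (Finset (Fin L → Fin k)),
      IsSteiner 𝓑 q r → EvenSymmetricOn I 𝓑 → (r = 2 ∧ IsPrimePow q) ∨ (r = 3 ∧ q = 4)) ∧
    (∀ L : ℕ, N₀ ≤ L →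
      ((∃ 𝓑 : Set (Finset (Fin L → Fin k)), IsSteiner 𝓑 q r ∧ EvenSymmetricOn univ 𝓑) ↔
        Cond k q r) ∧
      ((∃ 𝓑 : Set (Finset (Fin L → Fin k)), IsSteiner 𝓑 q r ∧ PositionSymmetric 𝓑) ↔
        Cond k q r)) :=
  main k q r hk hr hq

end Pool.Agent.Results.MP_409a13_co.InterchangeablePositions
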