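import Pool.Agent.H838P.Main
import Pool.Agent.H838P.Nat
import Pool.Agent.H838P.PslMain

/-!
# Steiner systems with a large dihedral group, and the projective line

A Steiner system `S(n+z,k,2c+z)`, `c` a divisor of `n`, on which a dihedral group of order `2n` acts,
naturally on `n` of the points and in any way on the `z` others, is trivial.  On the projective line over the
field with `q` elements this and one more argument show: there is no Steiner system `S(q+1,k,6)` with
`6 < k < q + 1`, and no `S(q+1,k,4)` with `4 < k < q + 1`, which is invariant under `PGL(2,q)`; nothing is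
assumed about transitivity on the blocks.  Most of this is then carried over to the smaller group `PSL(2,q)`,
whose dihedral subgroups have two orbits on the points.
-/

set_option autoImplicit false

open scoped LinearAlgebra.Projectivization

namespace Pool.Agent.Results.MP_409a13_co.ProjectiveLine

/-- `B` is a Steiner system `S(n,k,t)` on the set `X` of its points, `n = |X|`: its members (the blocks) are
`k`-element subsets of `X`, and every `t`-element subset of `X` is contained in exactly one block. -/
def IsSteiner {X : Type} (k t : ℕ) (B : Finset (Finset X)) : Prop :=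
  (∀ b ∈ B, b.card = k) ∧ ∀ T : Finset X, T.card = t → ∃! b, b ∈ B ∧ T ⊆ b

/-- The map `f` sends blocks to blocks. -/
def Preserves {X : Type} [DecidableEq X] (f : X → X) (B : Finset (Finset X)) : Prop :=
  ∀ b ∈ B, b.image f ∈ B

/-- The set `B` of sets of points of the projective line `ℙ F V`, `V` a vector space of dimension two, is
invariant under `PGL(2,q)`: every linear automorphism of `V` maps members of `B` to members of `B`. -/
def InvariantUnderPGL {F V : Type} [Field F] [AddCommGroup V] [Module F V] [DecidableEq (ℙ F V)]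
    (B : Finset (Finset (ℙ F V))) : Prop :=
  ∀ g : V ≃ₗ[F] V, Preserves (fun x => g • x) B

/-- The set `B` of sets of points of the projective line `ℙ F V`, `V` a vector space of dimension two, is
invariant under `PSL(2,q)`: every linear automorphism of `V` of determinant one maps members of `B` to
members of `B`. -/
def InvariantUnderPSL {F V : Type} [Field F] [AddCommGroup V] [Module F V] [DecidableEq (ℙ F V)]
    (B : Finset (Finset (ℙ F V))) : Prop :=
  ∀ g : V ≃ₗ[F] V, LinearEquiv.det g = 1 → Preserves (fun x => g • x) B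

/-- 1. Let `Z` be a finite set with `z` elements, and let `B` be a Steiner system `S(n+z,k,2c+z₀)`, `c` a
divisor of `n`, on the union of `ℤ/n` and `Z`. Let `α` and `β` be automorphisms with `α x = x + 1` and
`β x = -x` for `x` in `ℤ/n`, and let the subset `Z₀` of `Z` with `z₀` elements be invariant under `α` and `β`.
Then `k ≤ 2c + z` or `k ≥ n + z₀`; for `Z₀ = Z` this says that the system is trivial.

2. Let `F` be a finite field with `q` elements and `V` a vector space of dimension two over `F`, so that
the projective line `ℙ F V` has `q + 1` points. Let `t = 4`, or `t = 6`, or `t = 2c + 2` for a divisor `c`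
of `q - 1`, or `t = 2c` for a divisor `c` of `q + 1`. Then for `t < k < q + 1` there is no Steiner system
`S(q+1,k,t)` on `ℙ F V` which is invariant under `PGL(2,q)`.

3. For `t < k < q + 1` there is no Steiner system `S(q+1,k,t)` on `ℙ F V` which is invariant under
`PSL(2,q)` in each of the following cases: `t = 4` and `q ≠ 17`; `t = 6` and `q` is even, or `1` modulo `4`, or
`11` modulo `12`, or `7` modulo `12` and then `k ≠ 8` or `7` does not divide `q`; `q` is `3` modulo `4` and
`t = 2c` for a divisor `c` of `(q + 1) / 2`; `q` is `1` modulo `4` and `t = 2c + 2` for a divisor `c` of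
`(q - 1) / 2` with `q ≠ 16c + 1`. So for `t = 6` only the odd powers `q` of `3`, and those of `7` with `k = 8`,
are left. -/
theorem result :
    (∀ (Z : Type) [Fintype Z] [DecidableEq Z] (n c k : ℕ) (_ : 0 < n) (_ : c ∣ n)
      (B : Finset (Finset (ZMod n ⊕ Z))) (α β : Equiv.Perm (ZMod n ⊕ Z)) (Z₀ : Finset Z)
      (_ : IsSteiner k (2 * c + Z₀.card) B) (_ : Preserves α B) (_ : Preserves β B)
      (_ : ∀ x, α (Sum.inl x) = Sum.inl (x + 1)) (_ : ∀ x, β (Sum.inl x) = Sum.inl (-x))
      (_ : ∀ z ∈ Z₀, ∃ w ∈ Z₀, α (Sum.inr z) = Sum.inr w)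
      (_ : ∀ z ∈ Z₀, ∃ w ∈ Z₀, β (Sum.inr z) = Sum.inr w),
      k ≤ 2 * c + Fintype.card Z ∨ n + Z₀.card ≤ k) ∧
    (∀ (F V : Type) [Field F] [Fintype F] [AddCommGroup V] [Module F V]
      [DecidableEq (ℙ F V)] (_ : Module.finrank F V = 2) (k t : ℕ)
      (_ : t = 4 ∨ t = 6 ∨ (∃ c, c ∣ Fintype.card F - 1 ∧ t = 2 * c + 2) ∨
        (∃ c, c ∣ Fintype.card F + 1 ∧ t = 2 * c)) (_ : t < k) (_ : k < Fintype.card F + 1),
      ¬ ∃ B : Finset (Finset (ℙ F V)), IsSteiner k t B ∧ InvariantUnderPGL B) ∧
    (∀ (F V : Type) [Field F] [Fintype F] [AddCommGroup V] [Module F V]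
      [DecidableEq (ℙ F V)] (_ : Module.finrank F V = 2) (k t : ℕ)
      (_ : (t = 4 ∧ Fintype.card F ≠ 17) ∨
        (t = 6 ∧ (Even (Fintype.card F) ∨ Fintype.card F % 4 = 1 ∨ Fintype.card F % 12 = 11 ∨
          (Fintype.card F % 12 = 7 ∧ (k ≠ 8 ∨ ¬ 7 ∣ Fintype.card F)))) ∨
        (Fintype.card F % 4 = 3 ∧ ∃ c, c ∣ (Fintype.card F + 1) / 2 ∧ t = 2 * c) ∨
        (Fintype.card F % 4 = 1 ∧ ∃ c, c ∣ (Fintype.card F - 1) / 2 ∧ t = 2 * c + 2 ∧
          Fintype.card F ≠ 16 * c + 1)) (_ : t < k) (_ : k < Fintype.card F + 1),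
      ¬ ∃ B : Finset (Finset (ℙ F V)), IsSteiner k t B ∧ InvariantUnderPSL B) := by
  refine ⟨?_, ?_, ?_⟩
  · intro Z _ _ n c k hn hcn B α β Z₀ hB hα hβ h1 h2 h3 h4
    have : NeZero n := ⟨by omega⟩
    have h := Pool.Agent.H838P.natural (k := k) (t := 2 * c + Z₀.card) hcn B hB α β α.injective
      β.injective hα hβ h1 h2 (Z₀.map ⟨Sum.inr, Sum.inr_injective⟩) (by simp)
      (by
        intro z hz
        obtain ⟨w, hw, rfl⟩ := Finset.mem_map.mp hz
        obtain ⟨w', hw', h⟩ := h3 w hw
        exact Finset.mem_map.mpr ⟨w', hw', h.symm⟩)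
      (by
        intro z hz
        obtain ⟨w, hw, rfl⟩ := Finset.mem_map.mp hz
        obtain ⟨w', hw', h⟩ := h4 w hw
        exact Finset.mem_map.mpr ⟨w', hw', h.symm⟩)
      (by rw [Finset.card_map])
    rw [Finset.card_map] at h
    exact h
  · intro F V _ _ _ _ _ hV k t ht htk hk
    rintro ⟨B, hB, hI⟩
    exact Pool.Agent.H838P.main hV k t htk hk ht B hB hI
  · intro F V _ _ _ _ _ hV k t ht htk hk
    rintro ⟨B, hB, hI⟩
    refine Pool.Agent.H838P.main_psl hV k t htk hk ?_ B hB hI
    rcases ht with h | ⟨h, h'⟩ | h | h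
    · exact Or.inl h
    · refine Or.inr (Or.inl ⟨h, ?_⟩)
      rcases h' with h' | h' | h' | h'
      · left
        rw [Nat.even_iff] at h'
        omega
      · left
        omega
      · exact Or.inr (Or.inl h')
      · exact Or.inr (Or.inr h')
    · exact Or.inr (Or.inr (Or.inl h))
    · exact Or.inr (Or.inr (Or.inr h))

end Pool.Agent.Results.MP_409a13_co.ProjectiveLine
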