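import Pool.Agent.w839.DihDerived

/-!
# Symmetric Steiner systems on abelian groups

A Steiner system on an abelian group `G` together with `j` further points is called symmetric if
it is invariant under all `x ↦ b + x` and `x ↦ b - x`. For strength `r + j` with `r` even this
determines the structure of `G`, and often gives `|G| = q ^ k` with `q` a prime power.
-/

set_option autoImplicit false

namespace Pool.Agent.Results.MP_409a13_co.SymmetricSystems

/-- `𝓑` is a Steiner system `S(n,q,r)` on the set `V` of its points, `n = |V|`: its members (the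
blocks) are `q`-element subsets of `V`, and every `r`-element subset of `V` is contained in exactly
one block. -/
def IsSteiner {V : Type} (q r : ℕ) (𝓑 : Finset (Finset V)) : Prop :=
  (∀ B ∈ 𝓑, B.card = q) ∧ ∀ T : Finset V, T.card = r → ∃! B, B ∈ 𝓑 ∧ T ⊆ B

/-- A family `𝓑` of subsets of `G ∪ {∞₁, …, ∞ⱼ}`, `G` an abelian group, is symmetric if all maps
`x ↦ b + x` and `x ↦ b - x` (`b ∈ G`), extended by fixing `∞₁, …, ∞ⱼ`, send blocks to blocks. -/
def IsSymmetric {G : Type} [AddCommGroup G] [DecidableEq G] {j : ℕ}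
    (𝓑 : Finset (Finset (G ⊕ Fin j))) : Prop :=
  ∀ B ∈ 𝓑, ∀ b : G, B.image (Sum.map (fun x => b + x) id) ∈ 𝓑 ∧
    B.image (Sum.map (fun x => b - x) id) ∈ 𝓑

/-- Let `G` be an abelian group of order `n` and let a symmetric Steiner system `S(n+j,q+j,r+j)` on
`G ∪ {∞₁, …, ∞ⱼ}` be given, where `r` is even, `2 ≤ r < q < n`, and `r = 2` or `q = r + 1` or `q`
and `n` are odd. Then `q • g = 0` for all `g ∈ G`. If moreover `r = 2` or all primes dividing `n`
exceed `r`, then `q` is a power of a prime `p`, `n` is a power of `q` and `p • g = 0` for all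
`g ∈ G`. -/
theorem result (G : Type) [AddCommGroup G] [Fintype G] [DecidableEq G] (j q r : ℕ)
    (𝓑 : Finset (Finset (G ⊕ Fin j))) (hS : IsSteiner (q + j) (r + j) 𝓑) (hI : IsSymmetric 𝓑)
    (hr : Even r) (hr2 : 2 ≤ r) (hrq : r < q) (hqn : q < Fintype.card G)
    (hcase : r = 2 ∨ q = r + 1 ∨ (Odd q ∧ Odd (Fintype.card G))) :
    (∀ g : G, q • g = 0) ∧
      ((r = 2 ∨ ∀ p : ℕ, p.Prime → p ∣ Fintype.card G → r < p) →
        ∃ p e k : ℕ, p.Prime ∧ q = p ^ e ∧ Fintype.card G = q ^ k ∧ ∀ g : G, p • g = 0) := by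
  by_cases h2 : r = 2
  · subst h2
    obtain ⟨p, e, k, hp, hqp, hn, hG⟩ := W839.Dih.abelian_two hS hI (by omega) hqn
    refine ⟨?_, fun _ => ⟨p, e, k, hp, hqp, hn, hG⟩⟩
    intro g
    obtain ⟨e', rfl⟩ : ∃ e', e = e' + 1 := by
      refine ⟨e - 1, ?_⟩
      rcases Nat.eq_zero_or_pos e with h | h
      · rw [h, pow_zero] at hqp; omega
      · omega
    rw [hqp, pow_succ, mul_comm, mul_nsmul', hG]
  · have h := W839.Dih.abelian_even hS hI hr hr2 hrq hqn (hcase.resolve_left h2)
    exact ⟨h.1, fun hp => h.2 (hp.resolve_left h2)⟩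

/-- A consequence (`j = 0`, `r = 2`): for `3 ≤ q < n` a symmetric `S(n,q,2)` on some abelian group
of order `n` exists if and only if `q` is a prime power and `n` is a power of `q`. -/
theorem strength_two (q n : ℕ) (hq : 3 ≤ q) (hqn : q < n) :
    (∃ (G : Type) (_ : AddCommGroup G) (_ : Fintype G) (_ : DecidableEq G),
      Fintype.card G = n ∧ ∃ 𝓑 : Finset (Finset G), IsSteiner q 2 𝓑 ∧
        ∀ B ∈ 𝓑, ∀ b : G, B.image (fun x => b + x) ∈ 𝓑 ∧ B.image (fun x => b - x) ∈ 𝓑) ↔
      IsPrimePow q ∧ ∃ k : ℕ, n = q ^ k :=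
  W839.Dih.two_iff q n hq hqn

end Pool.Agent.Results.MP_409a13_co.SymmetricSystems
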