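import Pool.Agent.w839.DihDerived

/-!
# Two reversals of a Steiner system

An involutory automorphism of a Steiner system fixing the points of a set `J` and exactly one
further point is called a reversal. If `r` is even and `q` is odd, any two reversals of an
`S(n+j,q+j,r+j)` with the same set `J` of `j` points leave a common block invariant.
-/

set_option autoImplicit false

namespace Pool.Agent.Results.MP_409a13_co.TwoReversals

/-- `𝓑` is a Steiner system `S(n,q,r)` on the set `V` of its points, `n = |V|`: its members (the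
blocks) are `q`-element subsets of `V`, and every `r`-element subset of `V` is contained in exactly
one block. -/
def IsSteiner {V : Type} (q r : ℕ) (𝓑 : Finset (Finset V)) : Prop :=
  (∀ B ∈ 𝓑, B.card = q) ∧ ∀ T : Finset V, T.card = r → ∃! B, B ∈ 𝓑 ∧ T ⊆ B

/-- `σ` is an involutory automorphism of `𝓑` which fixes every point of `J` and exactly one
point outside `J`. -/
structure IsReversal {V : Type} [DecidableEq V] (𝓑 : Finset (Finset V)) (J : Finset V)
    (σ : Equiv.Perm V) : Prop where
  invol : ∀ x, σ (σ x) = x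
  aut : ∀ B ∈ 𝓑, B.image σ ∈ 𝓑
  fix : ∀ x ∈ J, σ x = x
  unique : ∃! x, x ∉ J ∧ σ x = x

/-- Let `𝓑` be a Steiner system `S(n+j,q+j,r+j)` with `r` even, `q` odd and `r < q < n`, let `J` be
a set of `j` points and let `σ`, `τ` be reversals of `𝓑` for `J`. Then some block containing all the
fixed points of `σ` and of `τ` is invariant under `σ` and under `τ`; and if the permutation
induced by `τ σ` outside `J` is semiregular with cycles of length `N`, then `N` divides `q`. -/
theorem result (V : Type) [Fintype V] [DecidableEq V] (q r : ℕ) (𝓑 : Finset (Finset V))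
    (J : Finset V) (σ τ : Equiv.Perm V) (hS : IsSteiner (q + J.card) (r + J.card) 𝓑)
    (hr : Even r) (hq : Odd q) (hrq : r < q) (hn : q + J.card < Fintype.card V)
    (hσ : IsReversal 𝓑 J σ) (hτ : IsReversal 𝓑 J τ) :
    (∃ B ∈ 𝓑, (∀ x, σ x = x ∨ τ x = x → x ∈ B) ∧ B.image σ = B ∧ B.image τ = B) ∧
      ∀ N : ℕ, (∀ x, x ∉ J → ∀ k : ℕ, ((τ * σ) ^ k) x = x ↔ N ∣ k) → N ∣ q := by
  obtain ⟨⟨B, hB, _, h1, h2, h3, h4⟩, h5⟩ := W839.Dih.two_reversals J hS hr hq hrq hn σ τ
    hσ.invol hτ.invol hσ.fix hτ.fix hσ.unique hτ.unique hσ.aut hτ.aut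
  exact ⟨⟨B, hB, fun x hx => hx.elim (h1 x) (h2 x), h3, h4⟩, h5⟩

end Pool.Agent.Results.MP_409a13_co.TwoReversals
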